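import Mathlib
import Pool.Agent.Y114.RM.Stm

/-!
# The Casimir operator on the square of a representation
-/

set_option autoImplicit false
set_option linter.unusedSectionVars false

namespace Pool.Agent.Helper49N

open Module TensorProduct Pool.Agent.Y114.RM

noncomputable section

variable {k : Type} [Field k] [CharZero k] {V : Type} [AddCommGroup V] [Module k V]
  [FiniteDimensional k V]

/-- Dual bases for a subspace on which the trace form is not degenerate, and the projection. -/
theorem exists_pr {L : Submodule k (End k V)} (hL : NonDeg L) :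
    ∃ (n : ℕ) (x y : Fin n → End k V) (pr : End k V →ₗ[k] End k V),
      (∀ i, x i ∈ L) ∧ (∀ i, y i ∈ L) ∧
      (∀ M, ∀ Y ∈ L, LinearMap.trace k V (pr M * Y) = LinearMap.trace k V (M * Y)) ∧
      ∀ M, pr M = ∑ i, LinearMap.trace k V (M * x i) • y i := by
  let β : End k V →ₗ[k] End k V →ₗ[k] k := LinearMap.mk₂ k
    (fun X Y => LinearMap.trace k V (X * Y)) (fun X X' Y => by rw [add_mul, map_add])
    (fun c X Y => by rw [smul_mul_assoc, map_smul]) (fun X Y Y' => by rw [mul_add, map_add])
    (fun c X Y => by rw [mul_smul_comm, map_smul])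
  have hβ : ∀ X Y, β X Y = LinearMap.trace k V (X * Y) := fun _ _ => rfl
  let ψ : L →ₗ[k] Dual k L := ((β.domRestrict L).flip.domRestrict L)
  have hψ : ∀ (y x : L), ψ y x = LinearMap.trace k V (x.1 * y.1) := fun _ _ => rfl
  have i1 : Function.Injective ψ := by
    rw [← LinearMap.ker_eq_bot, LinearMap.ker_eq_bot']
    intro y hy
    refine Subtype.ext (hL y y.2 fun x hx => ?_)
    rw [LinearMap.trace_mul_comm, ← hψ y ⟨x, hx⟩, hy]
    rfl
  have hsurj : Function.Surjective ψ :=
    (LinearMap.injective_iff_surjective_of_finrank_eq_finrank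
      (by rw [Subspace.dual_finrank_eq])).1 i1
  let b := finBasis k L
  have hy : ∀ i, ∃ y : L, ψ y = b.coord i := fun i => hsurj _
  choose y hy using hy
  have hy2 : ∀ i, ∀ x : L, LinearMap.trace k V (x.1 * (y i).1) = b.repr x i := by
    intro i x
    rw [← hψ, hy]
    rfl
  let pr : End k V →ₗ[k] End k V := ∑ i, (β.flip (b i : End k V)).smulRight ((y i).1)
  have hpr : ∀ M, pr M = ∑ i, LinearMap.trace k V (M * (b i : End k V)) • (y i).1 := by
    intro M
    change (∑ i, (β.flip (b i : End k V)).smulRight ((y i).1)) M = _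
    rw [LinearMap.sum_apply]
    refine Finset.sum_congr rfl fun i _ => ?_
    rw [LinearMap.smulRight_apply, LinearMap.flip_apply, hβ]
  refine ⟨_, fun i => b i, fun i => (y i).1, pr, fun i => (b i).2, fun i => (y i).2,
    fun M Y hY => ?_, hpr⟩
  rw [hpr, Finset.sum_mul, map_sum]
  have h3 : Y = ∑ i, LinearMap.trace k V (Y * (y i).1) • (b i : End k V) := by
    have h4 := congrArg Subtype.val (b.sum_repr ⟨Y, hY⟩)
    rw [Submodule.coe_sum] at h4
    refine h4.symm.trans ?_
    refine Finset.sum_congr rfl fun i _ => ?_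
    rw [Submodule.coe_smul, ← hy2 i ⟨Y, hY⟩]
  conv_rhs => rw [h3]
  rw [Finset.mul_sum, map_sum]
  refine Finset.sum_congr rfl fun i _ => ?_
  rw [smul_mul_assoc, map_smul, mul_smul_comm, map_smul, smul_eq_mul, smul_eq_mul,
    LinearMap.trace_mul_comm k (y i).1 Y, mul_comm]

/-- The rank one operator. -/
def rk (f : Dual k V) (u : V) : End k V := f.smulRight u

theorem rk_apply (f : Dual k V) (u v : V) : rk f u v = f v • u := rfl

theorem trace_rk (f : Dual k V) (u : V) (X : End k V) :
    LinearMap.trace k V (rk f u * X) = f (X u) := by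
  have h1 : rk f u * X = rk (f ∘ₗ X) u := LinearMap.ext fun v => rfl
  rw [h1]
  have h2 : rk (f ∘ₗ X) u = dualTensorHom k V V ((f ∘ₗ X) ⊗ₜ[k] u) := LinearMap.ext fun v => by
    rw [dualTensorHom_apply]
    rfl
  rw [h2]
  have h3 := LinearMap.congr_fun (LinearMap.trace_eq_contract k V) ((f ∘ₗ X) ⊗ₜ[k] u)
  rw [LinearMap.comp_apply] at h3
  rw [h3, contractLeft_apply]
  rfl

/-- Linear maps on endomorphisms are determined by the rank one operators. -/
theorem rk_span {W : Type} [AddCommGroup W] [Module k W] {F G : End k V →ₗ[k] W}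
    (h : ∀ f u, F (rk f u) = G (rk f u)) : F = G := by
  refine LinearMap.ext fun M => ?_
  let b := finBasis k V
  have h1 : M = ∑ i, rk (b.coord i) (M (b i)) := by
    refine b.ext fun j => ?_
    rw [LinearMap.sum_apply, Finset.sum_eq_single j]
    · rw [rk_apply, Basis.coord_apply, Basis.repr_self, Finsupp.single_eq_same, one_smul]
    · intro i _ hi
      rw [rk_apply, Basis.coord_apply, Basis.repr_self, Finsupp.single_eq_of_ne (by tauto), zero_smul]
    · intro h
      exact absurd (Finset.mem_univ j) h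
  rw [h1, map_sum, map_sum]
  exact Finset.sum_congr rfl fun i _ => h _ _

/-- Contraction with a functional in the first factor. -/
def ctr (f : Dual k V) : V ⊗[k] V →ₗ[k] V :=
  (TensorProduct.lid k V).toLinearMap ∘ₗ f.rTensor V

theorem ctr_tmul (f : Dual k V) (u w : V) : ctr f (u ⊗ₜ[k] w) = f u • w := by
  unfold ctr
  rw [LinearMap.comp_apply, LinearMap.rTensor_tmul, LinearEquiv.coe_coe, TensorProduct.lid_tmul]

theorem ctr_ext {Q Q' : V ⊗[k] V} (h : ∀ f, ctr f Q = ctr f Q') : Q = Q' := by
  let b := finBasis k V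
  have h1 : ∀ Q : V ⊗[k] V, Q = ∑ i, b i ⊗ₜ[k] ctr (b.coord i) Q := by
    intro Q
    induction Q with
    | zero => simp
    | add Q Q' h h' =>
      conv_lhs => rw [h, h']
      rw [← Finset.sum_add_distrib]
      exact Finset.sum_congr rfl fun i _ => by rw [map_add, tmul_add]
    | tmul u w =>
      conv_lhs => rw [← b.sum_repr u, sum_tmul]
      refine Finset.sum_congr rfl fun i _ => ?_
      rw [ctr_tmul, tmul_smul, smul_tmul']
      rfl
  rw [h1 Q, h1 Q']
  exact Finset.sum_congr rfl fun i _ => by rw [h]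

/-- The action on the square. -/
def onSquare (X : End k V) : End k (V ⊗[k] V) := X.rTensor V + X.lTensor V

theorem onSquare_tmul (X : End k V) (u w : V) :
    onSquare X (u ⊗ₜ[k] w) = X u ⊗ₜ[k] w + u ⊗ₜ[k] X w := rfl

/-- The Casimir operator. -/
def cas {n : ℕ} (x y : Fin n → End k V) : End k (V ⊗[k] V) :=
  ∑ i, TensorProduct.map (x i) (y i)

theorem cas_tmul {n : ℕ} (x y : Fin n → End k V) (u w : V) :
    cas x y (u ⊗ₜ[k] w) = ∑ i, x i u ⊗ₜ[k] y i w := by
  unfold cas
  rw [LinearMap.sum_apply]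
  exact Finset.sum_congr rfl fun i _ => TensorProduct.map_tmul _ _ _ _

variable {L : Submodule k (End k V)} {n : ℕ} {x y : Fin n → End k V}
  {pr : End k V →ₗ[k] End k V}

theorem ctr_cas (hpr : ∀ M, pr M = ∑ i, LinearMap.trace k V (M * x i) • y i) (f : Dual k V)
    (u w : V) : ctr f (cas x y (u ⊗ₜ[k] w)) = pr (rk f u) w := by
  rw [cas_tmul, map_sum, hpr, LinearMap.sum_apply]
  refine Finset.sum_congr rfl fun i _ => ?_
  rw [ctr_tmul, LinearMap.smul_apply, trace_rk]

theorem ctr_onSquare (X : End k V) (f : Dual k V) (Q : V ⊗[k] V) :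
    ctr f (onSquare X Q) = ctr (f ∘ₗ X) Q + X (ctr f Q) := by
  induction Q with
  | zero => simp
  | add Q Q' h h' => simp only [map_add, h, h']; abel
  | tmul u w => rw [onSquare_tmul, map_add, ctr_tmul, ctr_tmul, ctr_tmul, ctr_tmul, map_smul]; rfl

section main

variable (hnd : NonDeg L) (hx : ∀ i, x i ∈ L) (hy : ∀ i, y i ∈ L)
  (hp : ∀ M, ∀ Y ∈ L, LinearMap.trace k V (pr M * Y) = LinearMap.trace k V (M * Y))
  (hpr : ∀ M, pr M = ∑ i, LinearMap.trace k V (M * x i) • y i)
include hnd hx hy hp hpr

theorem pr_mem (M : End k V) : pr M ∈ L := by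
  rw [hpr]
  exact Submodule.sum_mem _ fun i _ => L.smul_mem _ (hy i)

theorem pr_uniq {M N : End k V} (hN : N ∈ L)
    (h : ∀ Y ∈ L, LinearMap.trace k V (N * Y) = LinearMap.trace k V (M * Y)) : pr M = N := by
  rw [← sub_eq_zero]
  refine hnd _ (L.sub_mem (pr_mem hnd hx hy hp hpr M) hN) fun Y hY => ?_
  rw [sub_mul, map_sub, hp M Y hY, h Y hY, sub_self]

theorem pr_self {M : End k V} (hM : M ∈ L) : pr M = M :=
  pr_uniq hnd hx hy hp hpr hM fun _ _ => rfl

/-- An operator which commutes with the Casimir operator normalizes `L`. -/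
theorem norm_of_comm {X : End k V} (hX : cas x y * onSquare X = onSquare X * cas x y) :
    ∀ Y ∈ L, X * Y - Y * X ∈ L := by
  have key : pr ∘ₗ (LinearMap.mulLeft k X - LinearMap.mulRight k X) =
      (LinearMap.mulLeft k X - LinearMap.mulRight k X) ∘ₗ pr := by
    refine rk_span fun f u => ?_
    change pr (X * rk f u - rk f u * X) = X * pr (rk f u) - pr (rk f u) * X
    refine LinearMap.ext fun w => ?_
    have h1 := congrArg (ctr f) (LinearMap.congr_fun hX (u ⊗ₜ[k] w))
    rw [Module.End.mul_apply, Module.End.mul_apply, onSquare_tmul, map_add, map_add,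
      ctr_cas hpr, ctr_cas hpr, ctr_onSquare, ctr_cas hpr, ctr_cas hpr] at h1
    have e1 : X * rk f u = rk f (X u) := LinearMap.ext fun v => by
      rw [Module.End.mul_apply, rk_apply, rk_apply, map_smul]
    have e2 : rk f u * X = rk (f ∘ₗ X) u := LinearMap.ext fun v => rfl
    rw [e1, e2, map_sub, LinearMap.sub_apply, LinearMap.sub_apply, Module.End.mul_apply,
      Module.End.mul_apply, sub_eq_sub_iff_add_eq_add, h1, add_comm]
  intro Y hY
  have h1 := LinearMap.congr_fun key Y
  change pr (X * Y - Y * X) = X * pr Y - pr Y * X at h1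
  rw [pr_self hnd hx hy hp hpr hY] at h1
  rw [← h1]
  exact pr_mem hnd hx hy hp hpr _

/-- The Casimir operator commutes with the normalizer of `L`. -/
theorem cas_comm {R R' : End k V} (h1 : R * R' = 1) (h2 : R' * R = 1)
    (h3 : ∀ Y ∈ L, R * Y * R' ∈ L) (h4 : ∀ Y ∈ L, R' * Y * R ∈ L) :
    cas x y * TensorProduct.map R R = TensorProduct.map R R * cas x y := by
  have hprR : ∀ M, pr (R * M * R') = R * pr M * R' := by
    intro M
    refine pr_uniq hnd hx hy hp hpr (h3 _ (pr_mem hnd hx hy hp hpr M)) fun Y hY => ?_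
    have e1 : ∀ N : End k V, LinearMap.trace k V (R * N * R' * Y) =
        LinearMap.trace k V (N * (R' * Y * R)) := by
      intro N
      rw [mul_assoc R, mul_assoc R, LinearMap.trace_mul_comm]
      congr 1
    rw [e1, e1, hp M _ (h4 Y hY)]
  refine TensorProduct.ext' fun u w => ?_
  rw [Module.End.mul_apply, Module.End.mul_apply, TensorProduct.map_tmul]
  refine ctr_ext fun f => ?_
  have e0 : ∀ Q : V ⊗[k] V, ctr f (TensorProduct.map R R Q) = R (ctr (f ∘ₗ R) Q) := by
    intro Q
    induction Q with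
    | zero => simp
    | add Q Q' h h' => simp only [map_add, h, h']
    | tmul u w => rw [TensorProduct.map_tmul, ctr_tmul, ctr_tmul, map_smul]; rfl
  rw [ctr_cas hpr, e0, ctr_cas hpr]
  have e1 : rk f (R u) = R * rk (f ∘ₗ R) u * R' := LinearMap.ext fun v => by
    rw [Module.End.mul_apply, Module.End.mul_apply, rk_apply, rk_apply, map_smul,
      LinearMap.comp_apply, ← Module.End.mul_apply R R', h1, Module.End.one_apply]
  rw [e1, hprR, Module.End.mul_apply, Module.End.mul_apply, ← Module.End.mul_apply R' R, h2,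
    Module.End.one_apply]

/-- The Casimir operator is symmetric. -/
theorem cas_swap (u w : V) :
    TensorProduct.comm k V V (cas x y (u ⊗ₜ[k] w)) = cas x y (w ⊗ₜ[k] u) := by
  have h1 : cas x y = cas y x := by
    refine TensorProduct.ext' fun u w => ?_
    refine ctr_ext fun f => ?_
    rw [ctr_cas hpr]
    have h2 : pr (rk f u) = ∑ i, LinearMap.trace k V (rk f u * y i) • x i := by
      refine pr_uniq hnd hx hy hp hpr (Submodule.sum_mem _ fun i _ => L.smul_mem _ (hx i))
        fun Y hY => ?_
      have h3 : Y = ∑ i, LinearMap.trace k V (Y * x i) • y i := by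
        rw [← hpr, pr_self hnd hx hy hp hpr hY]
      conv_rhs => rw [h3]
      rw [Finset.sum_mul, map_sum, Finset.mul_sum, map_sum]
      refine Finset.sum_congr rfl fun i _ => ?_
      rw [smul_mul_assoc, map_smul, mul_smul_comm, map_smul, smul_eq_mul, smul_eq_mul,
        LinearMap.trace_mul_comm k (x i) Y, mul_comm]
    rw [h2, LinearMap.sum_apply, cas_tmul, map_sum]
    refine Finset.sum_congr rfl fun i _ => ?_
    rw [ctr_tmul, LinearMap.smul_apply, trace_rk]
  conv_rhs => rw [h1]
  rw [cas_tmul, cas_tmul, map_sum]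
  exact Finset.sum_congr rfl fun i _ => TensorProduct.comm_tmul _ _ _ _ _

end main

end

end Pool.Agent.Helper49N
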