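import Pool.Agent.Helper49N.Cas
import Pool.Agent.R918.Ell

/-!
# The motivic Tate conjecture and the endomorphisms of the square of a motive
-/

set_option autoImplicit false
set_option linter.unusedSectionVars false
set_option linter.unusedVariables false

namespace Pool.Agent.Helper49N

open Module TensorProduct Pool.Agent.Y114.RM Pool.Agent.Y114.TF Pool.Agent.H204R3.GP
  Pool.Agent.R913.Adj Pool.Agent.R918.Ell Pool.Agent

noncomputable section

section defs

variable {k V Γ : Type} [Field k] [AddCommGroup V] [Module k V] [Group Γ]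
  (ρ : Representation k Γ V) (𝔤 : Submodule k (End k V))

/-- The Tate conjecture for the endomorphisms of the square of the motive, over the base field. -/
def SqTate : Prop := ∀ P : End k (V ⊗[k] V),
  (∀ γ, P * TensorProduct.map (ρ γ) (ρ γ) = TensorProduct.map (ρ γ) (ρ γ) * P) →
    (∀ u w : V, TensorProduct.comm k V V (P (u ⊗ₜ[k] w)) = P (w ⊗ₜ[k] u)) →
      ∀ X ∈ 𝔤, P * (X.rTensor V + X.lTensor V) = (X.rTensor V + X.lTensor V) * P

/-- The Tate conjecture for the potentially abelian objects. -/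
def AbTate : Prop := ∀ (m : ℕ) (φ : Tensor k V m), TateTensor ρ φ →
  (∀ X ∈ 𝔤, ∀ Y ∈ 𝔤, KillsTensor (X * Y - Y * X) φ) → ∀ X ∈ 𝔤, KillsTensor X φ

end defs

section conv

variable {k V Γ : Type} [Field k] [CharZero k] [AddCommGroup V] [Module k V]
  [FiniteDimensional k V] [Group Γ]

/-- The pairing with two functionals. -/
def pp (f g : Dual k V) : V ⊗[k] V →ₗ[k] k := LinearMap.mul' k k ∘ₗ TensorProduct.map f g

theorem pp_tmul (f g : Dual k V) (u w : V) : pp f g (u ⊗ₜ[k] w) = f u * g w := rfl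

/-- The tensor attached to an endomorphism of the square. -/
theorem exists_ten (P : End k (V ⊗[k] V)) : ∃ φ : Tensor k V 4, ∀ v,
    φ v = pp (v 1).2 (v 3).2 (P ((v 0).1 ⊗ₜ[k] (v 2).1)) := by
  obtain ⟨z, rfl⟩ := (homTensorHomEquiv k V V V V).surjective P
  induction z with
  | zero => exact ⟨0, fun v => by simp⟩
  | add z z' h h' =>
    obtain ⟨φ, hφ⟩ := h
    obtain ⟨φ', hφ'⟩ := h'
    exact ⟨φ + φ', fun v => by
      rw [_root_.add_apply, hφ, hφ', map_add, LinearMap.add_apply, map_add]⟩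
  | tmul A B =>
    let om : End k V → (V × Dual k V) →ₗ[k] (V × Dual k V) →ₗ[k] k := fun A =>
      LinearMap.mk₂ k (fun a b => b.2 (A a.1))
      (fun a a' b => by rw [Prod.fst_add, map_add, map_add])
      (fun c a b => by rw [Prod.smul_fst, map_smul, map_smul])
      (fun a b b' => by rw [Prod.snd_add, LinearMap.add_apply])
      (fun c a b => by rw [Prod.smul_snd, LinearMap.smul_apply])
    refine ⟨(Pool.Agent.H204R3.CM.prodMap (fun l : Fin 2 => Pool.Agent.H204R3.SP.bil2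
      (om (if l = 0 then A else B)))).domDomCongr (finProdFinEquiv : Fin 2 × Fin 2 ≃ Fin 4),
      fun v => ?_⟩
    rw [MultilinearMap.domDomCongr_apply, Pool.Agent.H204R3.CM.prodMap_apply, Fin.prod_univ_two,
      homTensorHomEquiv_apply, homTensorHomMap_apply, TensorProduct.map_tmul, pp_tmul,
      Pool.Agent.H204R3.SP.bil2_apply, Pool.Agent.H204R3.SP.bil2_apply, if_pos rfl,
      if_neg (by decide)]
    rfl

theorem trilin_ext {Q Q' : V ⊗[k] V} (h : ∀ f g, pp f g Q = pp f g Q') : Q = Q' := by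
  refine ctr_ext fun f => ?_
  rw [← sub_eq_zero, ← Module.forall_dual_apply_eq_zero_iff k]
  intro g
  have e : ∀ Q : V ⊗[k] V, g (ctr f Q) = pp f g Q := by
    intro Q
    induction Q with
    | zero => simp
    | add Q Q' h h' => simp only [map_add, h, h']
    | tmul u w => rw [ctr_tmul, map_smul, pp_tmul, smul_eq_mul]
  rw [map_sub, e, e, h, sub_self]

theorem pp_comp (f g : Dual k V) (A B : End k V) (Q : V ⊗[k] V) :
    pp f g (TensorProduct.map A B Q) = pp (f ∘ₗ A) (g ∘ₗ B) Q := by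
  induction Q with
  | zero => simp
  | add Q Q' h h' => simp only [map_add, h, h']
  | tmul u w => rfl

/-- The converse direction. -/
theorem sqTate_of (ρ : Representation k Γ V) {𝔤 : Submodule k (End k V)}
    (h : ∀ φ : Tensor k V 4, TateTensor ρ φ → ∀ X ∈ 𝔤, KillsTensor X φ) : SqTate ρ 𝔤 := by
  intro P hP _ X hX
  obtain ⟨φ, hφ⟩ := exists_ten P
  have hT : TateTensor ρ φ := by
    refine ⟨⊤, inferInstance, fun γ _ v => ?_⟩
    rw [hφ, hφ]
    change pp ((v 1).2 ∘ₗ ρ γ⁻¹) ((v 3).2 ∘ₗ ρ γ⁻¹)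
      (P (TensorProduct.map (ρ γ) (ρ γ) ((v 0).1 ⊗ₜ[k] (v 2).1))) = _
    have h1 := LinearMap.congr_fun (hP γ) ((v 0).1 ⊗ₜ[k] (v 2).1)
    rw [Module.End.mul_apply, Module.End.mul_apply] at h1
    rw [h1, pp_comp]
    have e : ∀ f : Dual k V, (f ∘ₗ ρ γ⁻¹) ∘ₗ ρ γ = f := fun f => LinearMap.ext fun v => by
      rw [LinearMap.comp_apply, LinearMap.comp_apply, ← Module.End.mul_apply, ← map_mul,
        inv_mul_cancel, map_one, Module.End.one_apply]
    rw [e, e]
  have h1 := h φ hT X hX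
  refine TensorProduct.ext' fun u w => ?_
  refine trilin_ext fun f g => ?_
  have h2 := h1 ![(u, 0), (0, f), (w, 0), (0, g)]
  rw [Fin.sum_univ_four] at h2
  simp only [hφ] at h2
  simp [lie] at h2
  have n1 : ∀ (f g : Dual k V) Q, pp (-f) g Q = -pp f g Q := by
    intro f g Q
    induction Q with
    | zero => simp
    | add Q Q' h h' => rw [map_add, map_add, h, h']; ring
    | tmul u w => rw [pp_tmul, pp_tmul, LinearMap.neg_apply, neg_mul]
  have n2 : ∀ (f g : Dual k V) Q, pp f (-g) Q = -pp f g Q := by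
    intro f g Q
    induction Q with
    | zero => simp
    | add Q Q' h h' => rw [map_add, map_add, h, h']; ring
    | tmul u w => rw [pp_tmul, pp_tmul, LinearMap.neg_apply, mul_neg]
  have n3 : ∀ Q, pp f g (X.rTensor V Q) = pp (LinearMap.dualMap X f) g Q := fun Q =>
    pp_comp f g X LinearMap.id Q
  have n4 : ∀ Q, pp f g (X.lTensor V Q) = pp f (LinearMap.dualMap X g) Q := fun Q =>
    pp_comp f g LinearMap.id X Q
  rw [n1, n2] at h2
  have e1 : (X.rTensor V + X.lTensor V) (u ⊗ₜ[k] w) = X u ⊗ₜ[k] w + u ⊗ₜ[k] X w := rfl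
  rw [Module.End.mul_apply, Module.End.mul_apply, e1, map_add, map_add, LinearMap.add_apply,
    map_add, n3, n4]
  linear_combination h2

end conv

section ring

variable {R : Type} [Ring R]

theorem rg1 (X Q A : R) : (X - Q) * A - A * (X - Q) = (X * A - A * X) - (Q * A - A * Q) := by
  noncomm_ring

theorem rg2 (X Q A A' : R) : ((X - Q) * A - A * (X - Q)) * A' =
    (X - Q) * (A * A') - A * ((X - Q) * A') := by
  noncomm_ring

theorem rg3 (X Q A A' : R) : (X - Q) * (A * A') - (X - Q) * A' * A =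
    X * (A * A' - A' * A) - Q * (A * A' - A' * A) := by
  noncomm_ring

end ring

section main

variable {ι : Type} [Fintype ι] [DecidableEq ι] {n : ι → ℕ} {ℓ : ℕ} [hℓ : Fact ℓ.Prime]
  {Γ : Type} [Group Γ] [TopologicalSpace Γ] [IsTopologicalGroup Γ] [CompactSpace Γ]

/-- **The Lie algebra of the Tate tensors and the centre generate the motivic Lie algebra.** -/
theorem exists_split (ρ : ∀ i, Representation ℚ_[ℓ] Γ (Fin (n i) → ℚ_[ℓ]))
    (hρ : ∀ i, Continuous fun g => LinearMap.toMatrix' (ρ i g))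
    {𝔤 : Submodule ℚ_[ℓ] (End ℚ_[ℓ] (∀ i, Fin (n i) → ℚ_[ℓ]))} (h𝔤 : IsMotivic ρ 𝔤)
    (hss : FiniteIndexSemisimple (sumRep ρ)) (hE : EndTate (sumRep ρ) 𝔤)
    (hS : SqTate (sumRep ρ) 𝔤) :
    ∀ X ∈ 𝔤, ∃ A, (∀ (m : ℕ) (φ : Tensor ℚ_[ℓ] (∀ i, Fin (n i) → ℚ_[ℓ]) m),
      TateTensor (sumRep ρ) φ → KillsTensor A φ) ∧ A ∈ 𝔤 ∧ X - A ∈ 𝔤 ∧
        ∀ Y ∈ 𝔤, (X - A) * Y = Y * (X - A) := by
  obtain ⟨L, hL, hLie, hAd, -⟩ := Y41.RM.lieL' ℚ_[ℓ] (∀ i, Fin (n i) → ℚ_[ℓ]) Γ (sumRep ρ)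
  have hnd : NonDeg L := nonDeg_of_semisimple hss hL hLie hAd
  have hLG : L ≤ 𝔤 := fun X hX => h𝔤.algebraic X fun m φ h =>
    ((hL X).1 hX).2 m φ (h𝔤.tate m φ h)
  obtain ⟨Δ, hΔ, hcΔ⟩ := Y220.RM.tfr ℓ ι n Γ ρ hρ (comm L) (comm_conj hAd) (comm_order hL)
  obtain ⟨N, x, y, pr, hx, hy, hp, hpr⟩ := exists_pr hnd
  have hAd' : ∀ γ, ∀ Y ∈ L, sumRep ρ γ * Y * sumRep ρ γ⁻¹ ∈ L := by
    intro γ Y hY
    have h1 := hAd γ Y hY
    rw [AdE_apply, ← mul_assoc] at h1
    exact h1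
  intro X hX
  have hcom := hS (cas x y) (fun γ => cas_comm hnd hx hy hp hpr (rmi (sumRep ρ) γ)
    (rim (sumRep ρ) γ) (hAd' γ) fun Y hY => by
      have h1 := hAd' γ⁻¹ Y hY
      rwa [inv_inv] at h1) (fun u w => cas_swap hnd hx hy hp hpr u w) X hX
  have hnorm := norm_of_comm hnd hx hy hp hpr hcom
  have hmem := pr_mem hnd hx hy hp hpr X
  -- the orthogonal component commutes with `L`
  have hc : ∀ A ∈ L, (X - pr X) * A - A * (X - pr X) = 0 := by
    intro A hA
    refine hnd _ ?_ fun A' hA' => ?_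
    · rw [rg1]
      exact L.sub_mem (hnorm A hA) (hLie _ hmem _ hA)
    · rw [rg2, map_sub, LinearMap.trace_mul_comm _ A, ← map_sub, rg3, map_sub,
        hp X _ (hLie A hA A' hA'), sub_self]
  have hcm : X - pr X ∈ comm L := fun A hA => (sub_eq_zero.1 (hc A hA)).symm
  have hfin := hE (X - pr X) ⟨Δ, hΔ, fun γ hγ => (hcΔ γ hγ _ hcm).symm⟩
  exact ⟨pr X, fun m φ hφ => ((hL _).1 hmem).2 m φ hφ, hLG hmem, Submodule.sub_mem _ hX (hLG hmem),
    fun Y hY => (hfin Y hY).symm⟩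

end main

end

end Pool.Agent.Helper49N
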